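import Mathlib

set_option autoImplicit false

/-!
Self-maps of affine space over a field `F`, their action on geometric points, closed subvarieties
defined over `F`, nilpotent and geometrically nilpotent subvarieties.
-/

namespace Q52.Nil

open MvPolynomial

/-- Geometric points of the affine space `𝔸ⁿ` over `F`: the points with coordinates in the
algebraic closure of `F`. -/
abbrev Pt (F : Type*) [Field F] (n : ℕ) := Fin n → AlgebraicClosure F

variable {F : Type*} [Field F] {n : ℕ}

/-- The action of the polynomial map `T = (T 0, …, T (n-1)) : 𝔸ⁿ → 𝔸ⁿ`, defined over `F`, on the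
geometric points. -/
noncomputable def act (T : Fin n → MvPolynomial (Fin n) F) (Q : Pt F n) : Pt F n :=
  fun i => aeval Q (T i)

/-- `Y` is (the set of geometric points of) a closed subvariety of `𝔸ⁿ` defined over `F`: it is the
set of common zeros of a set of polynomials with coefficients in `F`. -/
def IsSubvariety (Y : Set (Pt F n)) : Prop :=
  ∃ I : Set (MvPolynomial (Fin n) F), Y = {Q | ∀ f ∈ I, aeval Q f = 0}

/-- `Y` is nilpotent for `T`: one iterate maps `Y` onto a fixed point `P`. -/
def IsNilpotentFor (T : Fin n → MvPolynomial (Fin n) F) (Y : Set (Pt F n)) : Prop :=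
  ∃ P, act T P = P ∧ ∃ k, 1 ≤ k ∧ (act T)^[k] '' Y = {P}

/-- `Y` is geometrically nilpotent for `T`: there is a fixed point `P` such that each geometric point
of `Y` is mapped to `P` by some iterate of `T`. -/
def IsGeomNilpotentFor (T : Fin n → MvPolynomial (Fin n) F) (Y : Set (Pt F n)) : Prop :=
  ∃ P, act T P = P ∧ ∀ Q ∈ Y, ∃ k, 1 ≤ k ∧ (act T)^[k] Q = P

/-! ### The pigeonhole principle behind all the examples -/

/-- If `T` maps the finite set `S` to itself, is injective on `S \ C`, and `q ∈ S` is not in
`T (S \ C)`, then the orbit of `q` meets `C`. -/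
theorem exists_iterate_mem {α : Type*} (T : α → α) (S C : Set α) (hS : S.Finite)
    (hT : Set.MapsTo T S S) (hinj : Set.InjOn T (S \ C)) (q : α) (hq : q ∈ S)
    (hq' : ∀ x ∈ S \ C, T x ≠ q) : ∃ k, T^[k] q ∈ C := by
  by_contra hcon
  push Not at hcon
  have hmem : ∀ k, T^[k] q ∈ S \ C := fun k => ⟨hT.iterate k hq, hcon k⟩
  obtain ⟨i, j, hij, h⟩ : ∃ i j : ℕ, i < j ∧ T^[i] q = T^[j] q := by
    by_contra hne
    push Not at hne
    have hinj' : Function.Injective fun k : ℕ => T^[k] q := by
      intro i j h
      rcases lt_trichotomy i j with hlt | rfl | hlt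
      · exact absurd h (hne i j hlt)
      · rfl
      · exact absurd h.symm (hne j i hlt)
    exact Set.infinite_of_injective_forall_mem hinj' (fun k => (hmem k).1) hS
  -- descend
  have key : ∀ i j : ℕ, i < j → T^[i] q = T^[j] q → False := by
    intro i
    induction i with
    | zero =>
      intro j hj h
      obtain ⟨l, rfl⟩ : ∃ l, j = l + 1 := ⟨j - 1, by omega⟩
      rw [Function.iterate_succ_apply'] at h
      exact hq' _ (hmem l) h.symm
    | succ i ih =>
      intro j hj h
      obtain ⟨l, rfl⟩ : ∃ l, j = l + 1 := ⟨j - 1, by omega⟩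
      rw [Function.iterate_succ_apply', Function.iterate_succ_apply'] at h
      exact ih l (by omega) (hinj (hmem i) (hmem l) h)
  exact key i j hij h

/-- Over a finite field, each geometric point lies in a finite set which is preserved by every
polynomial map over the field. -/
theorem exists_finite_invariant [Finite F] (Q : Pt F n) :
    ∃ S : Set (Pt F n), S.Finite ∧ Q ∈ S ∧
      ∀ T : Fin n → MvPolynomial (Fin n) F, Set.MapsTo (act T) S S := by
  classical
  set A : IntermediateField F (AlgebraicClosure F) := IntermediateField.adjoin F (Set.range Q)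
    with hA
  have hfd : FiniteDimensional F A := by
    apply IntermediateField.finiteDimensional_adjoin
    intro x _
    exact Algebra.IsIntegral.isIntegral x
  have hfin : Finite A := Module.finite_of_finite F
  refine ⟨{R | ∀ i, R i ∈ A}, ?_, fun i => IntermediateField.subset_adjoin F _ ⟨i, rfl⟩, ?_⟩
  · have : {R : Pt F n | ∀ i, R i ∈ A} = Set.pi Set.univ fun _ => (A : Set (AlgebraicClosure F)) := by
      ext R
      simp
    rw [this]
    exact Set.Finite.pi fun _ => Set.toFinite _
  · intro T R hR i
    have : act T R i = ((aeval (fun j => (⟨R j, hR j⟩ : A)) (T i) : A) : AlgebraicClosure F) := by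
      unfold act
      have h := MvPolynomial.aeval_algebraMap_apply (AlgebraicClosure F) (fun j => (⟨R j, hR j⟩ : A)) (T i)
      exact h
    rw [this]
    exact SetLike.coe_mem _

end Q52.Nil
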