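import Mathlib
import Pool.Agent.Q52.Nil.Defs

set_option autoImplicit false

/-!
Closures over `F`, irreducible subvarieties and components.
-/

namespace Q52.Nil

open MvPolynomial

variable {F : Type*} [Field F] {n : ℕ}

/-- An irreducible closed subvariety of `𝔸ⁿ` defined over `F`: it is nonempty and is not covered by
two closed subvarieties defined over `F` unless it lies in one of them. -/
def IsIrreducibleSubvariety (Y : Set (Pt F n)) : Prop :=
  IsSubvariety Y ∧ Y.Nonempty ∧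
    ∀ Y₁ Y₂, IsSubvariety Y₁ → IsSubvariety Y₂ → Y ⊆ Y₁ ∪ Y₂ → Y ⊆ Y₁ ∨ Y ⊆ Y₂

/-- `Z` is an irreducible component of `Y`: it is a maximal irreducible closed subvariety of `Y`. -/
def IsComponent (Z Y : Set (Pt F n)) : Prop :=
  Maximal (fun Z => IsIrreducibleSubvariety Z ∧ Z ⊆ Y) Z

/-- The closure over `F` of a set of geometric points. -/
def clo (D : Set (Pt F n)) : Set (Pt F n) :=
  {Q | ∀ f : MvPolynomial (Fin n) F, (∀ R ∈ D, aeval R f = 0) → aeval Q f = 0}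

theorem isSubvariety_clo (D : Set (Pt F n)) : IsSubvariety (clo D) :=
  ⟨{f | ∀ R ∈ D, aeval R f = 0}, rfl⟩

theorem subset_clo (D : Set (Pt F n)) : D ⊆ clo D := fun _ hR _ hf => hf _ hR

theorem clo_subset {D Y : Set (Pt F n)} (hY : IsSubvariety Y) (h : D ⊆ Y) : clo D ⊆ Y := by
  obtain ⟨I, rfl⟩ := hY
  intro Q hQ f hf
  exact hQ f fun R hR => h hR f hf

/-- A subvariety contains `D` if all polynomials vanishing on it vanish on `D`. -/
theorem subset_of_vanishing {Y D : Set (Pt F n)} (hY : IsSubvariety Y)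
    (h : ∀ f : MvPolynomial (Fin n) F, (∀ Q ∈ Y, aeval Q f = 0) → ∀ Q ∈ D, aeval Q f = 0) :
    D ⊆ Y := by
  obtain ⟨I, rfl⟩ := hY
  intro Q hQ f hf
  exact h f (fun R hR => hR f hf) Q hQ

/-- The closure of the image of an affine space under a polynomial map is irreducible. -/
theorem isIrreducible_clo_image {m : ℕ} (φ : Fin n → MvPolynomial (Fin m) F)
    (D : Set (Pt F n)) (hD : D = Set.range fun R : Pt F m => (fun i => aeval R (φ i) : Pt F n)) :
    IsIrreducibleSubvariety (clo D) := by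
  refine ⟨isSubvariety_clo D, ?_, ?_⟩
  · refine ⟨fun i => aeval (0 : Pt F m) (φ i), subset_clo D ?_⟩
    rw [hD]
    exact ⟨0, rfl⟩
  · rintro Y₁ Y₂ ⟨I₁, rfl⟩ ⟨I₂, rfl⟩ hcov
    by_contra hcon
    push Not at hcon
    obtain ⟨h1, h2⟩ := hcon
    rw [Set.not_subset] at h1 h2
    obtain ⟨Q₁, hQ₁, hn1⟩ := h1
    obtain ⟨Q₂, hQ₂, hn2⟩ := h2
    simp only [Set.mem_ofPred_eq, not_forall] at hn1 hn2
    obtain ⟨f₁, hf₁, hne1⟩ := hn1
    obtain ⟨f₂, hf₂, hne2⟩ := hn2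
    have hfun : ∀ (f : MvPolynomial (Fin n) F) (R : Pt F m),
        aeval (fun i => aeval R (φ i) : Pt F n) f = aeval R (bind₁ φ f) := by
      intro f R
      rw [aeval_bind₁]
    have hne : ∀ f : MvPolynomial (Fin n) F, ∀ Q ∈ clo D, aeval Q f ≠ 0 → bind₁ φ f ≠ 0 := by
      intro f Q hQ hne h0
      apply hne
      apply hQ
      rw [hD]
      rintro R ⟨R', rfl⟩
      rw [hfun, h0, map_zero]
    have hmul : bind₁ φ f₁ * bind₁ φ f₂ ≠ 0 := mul_ne_zero (hne f₁ Q₁ hQ₁ hne1) (hne f₂ Q₂ hQ₂ hne2)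
    apply hmul
    have hinj := MvPolynomial.map_injective (σ := Fin m) (algebraMap F (AlgebraicClosure F))
      (algebraMap F (AlgebraicClosure F)).injective
    apply hinj
    rw [map_zero]
    apply MvPolynomial.funext
    intro R
    rw [map_zero, MvPolynomial.eval_map, ← MvPolynomial.aeval_def, map_mul, ← hfun, ← hfun]
    have hmem : (fun i => aeval R (φ i) : Pt F n) ∈ clo D := subset_clo D (by rw [hD]; exact ⟨R, rfl⟩)
    rcases hcov hmem with h | h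
    · rw [h f₁ hf₁, zero_mul]
    · rw [h f₂ hf₂, mul_zero]

/-- Every irreducible subvariety of `Y` lies in a component of `Y`. -/
theorem exists_component {Y W : Set (Pt F n)} (hY : IsSubvariety Y)
    (hW : IsIrreducibleSubvariety W) (hWY : W ⊆ Y) : ∃ Z, W ⊆ Z ∧ IsComponent Z Y := by
  have key := zorn_subset_nonempty {Z : Set (Pt F n) | IsIrreducibleSubvariety Z ∧ Z ⊆ Y} ?_ W
    ⟨hW, hWY⟩
  · obtain ⟨Z, hWZ, hZ⟩ := key
    exact ⟨Z, hWZ, hZ⟩
  · intro c hc hchain hne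
    refine ⟨clo (⋃₀ c), ⟨⟨isSubvariety_clo _, ?_, ?_⟩, ?_⟩, ?_⟩
    · obtain ⟨Z, hZ⟩ := hne
      obtain ⟨Q, hQ⟩ := (hc hZ).1.2.1
      exact ⟨Q, subset_clo _ ⟨Z, hZ, hQ⟩⟩
    · intro Y₁ Y₂ h₁ h₂ hcov
      by_contra hcon
      push Not at hcon
      have h1 : ¬ ⋃₀ c ⊆ Y₁ := fun h => hcon.1 (clo_subset h₁ h)
      have h2 : ¬ ⋃₀ c ⊆ Y₂ := fun h => hcon.2 (clo_subset h₂ h)
      rw [Set.sUnion_subset_iff] at h1 h2
      push Not at h1 h2
      obtain ⟨Z₁, hZ₁, hn1⟩ := h1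
      obtain ⟨Z₂, hZ₂, hn2⟩ := h2
      have hZcov : ∀ Z ∈ c, Z ⊆ Y₁ ∪ Y₂ := fun Z hZ Q hQ => hcov (subset_clo _ ⟨Z, hZ, hQ⟩)
      rcases hchain.total hZ₁ hZ₂ with h | h
      · rcases (hc hZ₂).1.2.2 Y₁ Y₂ h₁ h₂ (hZcov _ hZ₂) with h' | h'
        · exact hn1 (h.trans h')
        · exact hn2 h'
      · rcases (hc hZ₁).1.2.2 Y₁ Y₂ h₁ h₂ (hZcov _ hZ₁) with h' | h'
        · exact hn1 h'
        · exact hn2 (h.trans h')
    · exact clo_subset hY (Set.sUnion_subset fun Z hZ => (hc hZ).2)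
    · intro Z hZ Q hQ
      exact subset_clo _ ⟨Z, hZ, hQ⟩

/-- The only component of an irreducible subvariety is the subvariety itself. -/
theorem eq_of_isComponent {Z W : Set (Pt F n)} (hW : IsIrreducibleSubvariety W)
    (h : IsComponent Z W) : Z = W :=
  Set.Subset.antisymm h.prop.2 (h.2 ⟨hW, subset_rfl⟩ h.prop.2)

end Q52.Nil
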