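import Mathlib
import Pool.Agent.Q52.Nil.Defs

set_option autoImplicit false

/-!
The map `t (x, y) = (y, y (x - 1))` on pairs, and the orbit of `(0, s)`.
-/

namespace Q52.Nil

open MvPolynomial

/-- If `T` maps the finite set `S` to itself and is injective on `S \ C`, then the orbit of a point of
`S` meets `C` or the point is periodic. -/
theorem iterate_mem_or_periodic {α : Type*} (T : α → α) (S C : Set α) (hS : S.Finite)
    (hT : Set.MapsTo T S S) (hinj : Set.InjOn T (S \ C)) (q : α) (hq : q ∈ S) :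
    (∃ k, T^[k] q ∈ C) ∨ ∃ N, 1 ≤ N ∧ T^[N] q = q := by
  by_cases hcon : ∃ k, T^[k] q ∈ C
  · exact Or.inl hcon
  right
  push Not at hcon
  have hmem : ∀ k, T^[k] q ∈ S \ C := fun k => ⟨hT.iterate k hq, hcon k⟩
  obtain ⟨i, j, hij, h⟩ : ∃ i j : ℕ, i < j ∧ T^[i] q = T^[j] q := by
    by_contra hne
    push Not at hne
    have hinj' : Function.Injective fun k : ℕ => T^[k] q := by
      intro i j h
      rcases lt_trichotomy i j with hlt | rfl | hlt
      · exact absurd h (hne i j hlt)
      · rfl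
      · exact absurd h.symm (hne j i hlt)
    exact Set.infinite_of_injective_forall_mem hinj' (fun k => (hmem k).1) hS
  have key : ∀ i j : ℕ, i < j → T^[i] q = T^[j] q → T^[j - i] q = q := by
    intro i
    induction i with
    | zero =>
      intro j hj h
      simpa using h.symm
    | succ i ih =>
      intro j hj h
      obtain ⟨l, rfl⟩ : ∃ l, j = l + 1 := ⟨j - 1, by omega⟩
      rw [Function.iterate_succ_apply', Function.iterate_succ_apply'] at h
      have := ih l (by omega) (hinj (hmem i) (hmem l) h)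
      rwa [show l + 1 - (i + 1) = l - i by omega]
  exact ⟨j - i, by omega, key i j hij h⟩

section pair

variable {K : Type*} [Field K]

/-- `t (x, y) = (y, y (x - 1))`. -/
def t (p : K × K) : K × K := (p.2, p.2 * (p.1 - 1))

@[simp] theorem t_zero : t (0 : K × K) = 0 := by simp [t]

theorem t_iter_zero (k : ℕ) : t^[k] (0 : K × K) = 0 := by
  induction k with
  | zero => rfl
  | succ k ih => rw [Function.iterate_succ_apply', ih, t_zero]

theorem t_eq_zero {p : K × K} : t p = 0 ↔ p.2 = 0 := by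
  constructor
  · intro h
    exact congrArg Prod.fst h
  · intro h
    simp [t, h]

theorem t_injOn {p q : K × K} (hp : p.2 ≠ 0) (h : t p = t q) : p = q := by
  have h0 : p.2 = q.2 := congrArg Prod.fst h
  have h1 : p.2 * (p.1 - 1) = q.2 * (q.1 - 1) := congrArg Prod.snd h
  rw [← h0] at h1
  have h2 := mul_left_cancel₀ hp h1
  exact Prod.ext (by linear_combination h2) h0

/-- once dead, always dead -/
theorem t_iter_eq_zero_mono {p : K × K} {k l : ℕ} (hkl : k ≤ l) (h : t^[k] p = 0) :
    t^[l] p = 0 := by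
  obtain ⟨m, rfl⟩ := Nat.exists_eq_add_of_le hkl
  rw [add_comm, Function.iterate_add_apply, h, t_iter_zero]

/-- If `t^m q' = t^k (0, s)` is not zero, then `m ≤ k` and `q' = t^(k-m) (0, s)`. -/
theorem t_cancel (s : K) (m : ℕ) : ∀ (k : ℕ) (q' : K × K), t^[m] q' = t^[k] (0, s) →
    t^[k] ((0 : K), s) ≠ 0 → m ≤ k ∧ q' = t^[k - m] (0, s) := by
  induction m with
  | zero =>
    intro k q' h _
    exact ⟨Nat.zero_le _, by simpa using h⟩
  | succ m ih =>
    intro k q' h h0
    rw [Function.iterate_succ_apply'] at h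
    rcases k with _ | k
    · exfalso
      simp only [Function.iterate_zero, id_eq] at h h0
      have h1 : (t^[m] q').2 = 0 := congrArg Prod.fst h
      have h2 : t (t^[m] q') = 0 := t_eq_zero.2 h1
      exact h0 (by rw [← h, h2])
    · rw [Function.iterate_succ_apply'] at h h0
      have h1 : (t^[m] q').2 ≠ 0 := by
        intro h1
        exact h0 (by rw [← h]; exact t_eq_zero.2 h1)
      have h2 := t_injOn h1 h
      have h3 : t^[k] ((0 : K), s) ≠ 0 := by
        intro h3
        exact h0 (by rw [h3, t_zero])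
      obtain ⟨h4, h5⟩ := ih k q' h2 h3
      exact ⟨by omega, by rw [h5, Nat.succ_sub_succ]⟩

/-- A point of period two. -/
theorem exists_periodic [Infinite K] : ∃ a : K × K, ∀ k, t^[k] a ≠ 0 := by
  classical
  obtain ⟨u, hu⟩ := Set.Infinite.exists_notMem_finset (Set.infinite_univ (α := K)) ({0, -1} : Finset K)
  have hu0 : u ≠ 0 := by
    rintro rfl
    exact hu.2 (by simp)
  have hu1 : u + 1 ≠ 0 := by
    intro h
    exact hu.2 (by simp [eq_neg_of_add_eq_zero_left h])
  have e1 : (1 + u⁻¹) * (u + 1 - 1) = u + 1 := by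
    rw [add_sub_cancel_right, add_mul, one_mul, inv_mul_cancel₀ hu0]
  have e2 : (u + 1) * (1 + u⁻¹ - 1) = 1 + u⁻¹ := by
    rw [add_sub_cancel_left, add_mul, one_mul, mul_inv_cancel₀ hu0]
  have key : ∀ k, t^[k] (u + 1, 1 + u⁻¹) = (u + 1, 1 + u⁻¹) ∨
      t^[k] (u + 1, 1 + u⁻¹) = (1 + u⁻¹, u + 1) := by
    intro k
    induction k with
    | zero => left; rfl
    | succ k ih =>
      rw [Function.iterate_succ_apply']
      rcases ih with h | h
      · right
        rw [h]
        simp only [t]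
        rw [e1]
      · left
        rw [h]
        simp only [t]
        rw [e2]
  refine ⟨(u + 1, 1 + u⁻¹), fun k h => ?_⟩
  have h3 : 1 + u⁻¹ ≠ 0 := by
    intro h3
    rw [h3, zero_mul] at e1
    exact hu1 e1.symm
  rcases key k with h1 | h1
  · rw [h1] at h
    exact hu1 (congrArg Prod.fst h)
  · rw [h1] at h
    exact hu1 (congrArg Prod.snd h)

/-- The coordinates of `t^n (0, X)`. -/
noncomputable def cd (K : Type*) [Field K] : ℕ → Polynomial K × Polynomial K
  | 0 => (0, Polynomial.X)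
  | (n + 1) => ((cd K n).2, (cd K n).2 * ((cd K n).1 - 1))

theorem iterate_cd (s : K) (n : ℕ) :
    t^[n] ((0 : K), s) = ((cd K n).1.eval s, (cd K n).2.eval s) := by
  induction n with
  | zero => simp [cd]
  | succ n ih =>
    rw [Function.iterate_succ_apply', ih]
    simp [cd, t]

theorem cd_eval_zero (n : ℕ) : (cd K n).1.eval 0 = 0 ∧ (cd K n).2.eval 0 = 0 := by
  have h := iterate_cd (0 : K) n
  rw [show ((0 : K), (0 : K)) = 0 from rfl, t_iter_zero] at h
  exact ⟨(congrArg Prod.fst h).symm, (congrArg Prod.snd h).symm⟩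

theorem cd_natDegree (n : ℕ) : (cd K n).2.natDegree = Nat.fib (n + 1) ∧
    (cd K (n + 1)).2.natDegree = Nat.fib (n + 2) := by
  induction n with
  | zero =>
    refine ⟨by simp [cd], ?_⟩
    have : (cd K 1).2 = -Polynomial.X := by simp [cd]
    rw [this, Polynomial.natDegree_neg, Polynomial.natDegree_X]
    rfl
  | succ n ih =>
    refine ⟨ih.2, ?_⟩
    have e : (cd K (n + 1 + 1)).2 = (cd K (n + 1)).2 * ((cd K n).2 - 1) := rfl
    have hpos : 0 < (cd K n).2.natDegree := by
      rw [ih.1]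
      exact Nat.fib_pos.2 (by omega)
    have hpos' : 0 < (cd K (n + 1)).2.natDegree := by
      rw [ih.2]
      exact Nat.fib_pos.2 (by omega)
    have h1 : ((cd K n).2 - 1).natDegree = (cd K n).2.natDegree := by
      rw [← Polynomial.C_1, Polynomial.natDegree_sub_C]
    have h2 : (cd K n).2 - 1 ≠ 0 := by
      intro h
      rw [h, Polynomial.natDegree_zero] at h1
      omega
    have h3 : (cd K (n + 1)).2 ≠ 0 := by
      intro h
      rw [h, Polynomial.natDegree_zero] at hpos'
      omega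
    rw [e, Polynomial.natDegree_mul h3 h2, h1, ih.1, ih.2, add_comm, ← Nat.fib_add_two]

theorem cd_ne_zero (n : ℕ) : (cd K n).2 ≠ 0 := by
  intro h
  have := (cd_natDegree (K := K) n).1
  rw [h, Polynomial.natDegree_zero] at this
  have h2 : 0 < Nat.fib (n + 1) := Nat.fib_pos.2 (by omega)
  omega

/-- For large `n` no given nonzero polynomial vanishes at the `n`-th iterate of `(0, X)`. -/
theorem aeval_cd_ne_zero (h : MvPolynomial (Fin 2) K) (hh : h ≠ 0) :
    ∃ n₀, ∀ n, n₀ ≤ n → aeval ![(cd K n).1, (cd K n).2] h ≠ 0 := by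
  classical
  set D := h.totalDegree with hD
  refine ⟨D + 5, fun n hn => ?_⟩
  obtain ⟨m, rfl⟩ : ∃ m, n = m + 1 := ⟨n - 1, by omega⟩
  have hc1 : (cd K (m + 1)).1 = (cd K m).2 := rfl
  have hdeg1 : (cd K m).2.natDegree = Nat.fib (m + 1) := (cd_natDegree m).1
  have hdeg2 : (cd K (m + 1)).2.natDegree = Nat.fib (m + 2) := (cd_natDegree m).2
  have hexp : aeval ![(cd K (m + 1)).1, (cd K (m + 1)).2] h =
      ∑ d ∈ h.support, Polynomial.C (h.coeff d) * ((cd K m).2 ^ (d 0) * (cd K (m + 1)).2 ^ (d 1)) := by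
    rw [aeval_def, eval₂_eq']
    refine Finset.sum_congr rfl fun d _ => ?_
    rw [Fin.prod_univ_two]
    simp [hc1, Polynomial.algebraMap_eq]
  have hterm : ∀ d ∈ h.support, (Polynomial.C (h.coeff d) *
      ((cd K m).2 ^ (d 0) * (cd K (m + 1)).2 ^ (d 1))).degree =
      ((d 0 * Nat.fib (m + 1) + d 1 * Nat.fib (m + 2) : ℕ) : WithBot ℕ) := by
    intro d hd
    have hne : Polynomial.C (h.coeff d) ≠ 0 := by
      rw [Ne, Polynomial.C_eq_zero]
      exact mem_support_iff.1 hd
    have hne2 : (cd K m).2 ^ (d 0) * (cd K (m + 1)).2 ^ (d 1) ≠ 0 :=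
      mul_ne_zero (pow_ne_zero _ (cd_ne_zero _)) (pow_ne_zero _ (cd_ne_zero _))
    rw [Polynomial.degree_eq_natDegree (mul_ne_zero hne hne2), Polynomial.natDegree_mul hne hne2,
      Polynomial.natDegree_C, zero_add, Polynomial.natDegree_mul
      (pow_ne_zero _ (cd_ne_zero _)) (pow_ne_zero _ (cd_ne_zero _)), Polynomial.natDegree_pow,
      Polynomial.natDegree_pow, hdeg1, hdeg2]
  have hsm : ∀ d ∈ h.support, d 0 ≤ D ∧ d 1 ≤ D := by
    intro d hd
    have h1 := le_totalDegree hd
    have h2 : (d.sum fun _ e => e) = d 0 + d 1 := by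
      rw [Finsupp.sum_fintype _ _ (fun _ => rfl), Fin.sum_univ_two]
    rw [h2] at h1
    omega
  have hbig : D < Nat.fib (m + 2) := by
    have : m + 2 ≤ Nat.fib (m + 2) + 1 := Nat.le_fib_add_one _
    omega
  have hdisj : Set.Pairwise {d | d ∈ h.support ∧ (Polynomial.C (h.coeff d) *
      ((cd K m).2 ^ (d 0) * (cd K (m + 1)).2 ^ (d 1))) ≠ 0}
      (Function.onFun (· ≠ ·) (Polynomial.degree ∘ fun d => Polynomial.C (h.coeff d) *
      ((cd K m).2 ^ (d 0) * (cd K (m + 1)).2 ^ (d 1)))) := by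
    intro d hd d' hd' hne heq
    simp only [Function.comp] at heq
    rw [hterm d hd.1, hterm d' hd'.1] at heq
    have heq' : d 0 * Nat.fib (m + 1) + d 1 * Nat.fib (m + 2) =
        d' 0 * Nat.fib (m + 1) + d' 1 * Nat.fib (m + 2) := by exact_mod_cast heq
    have hco : Nat.Coprime (Nat.fib (m + 1)) (Nat.fib (m + 2)) := Nat.fib_coprime_fib_succ (m + 1)
    obtain ⟨b1, b2⟩ := hsm d hd.1
    obtain ⟨b3, b4⟩ := hsm d' hd'.1
    have h0 : d 0 = d' 0 := by
      have hz : ((d 0 : ℤ) - d' 0) * Nat.fib (m + 1) = ((d' 1 : ℤ) - d 1) * Nat.fib (m + 2) := by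
        have : ((d 0 * Nat.fib (m + 1) + d 1 * Nat.fib (m + 2) : ℕ) : ℤ) =
          ((d' 0 * Nat.fib (m + 1) + d' 1 * Nat.fib (m + 2) : ℕ) : ℤ) := by rw [heq']
        push_cast at this
        linarith
      have hdvd : (Nat.fib (m + 2) : ℤ) ∣ ((d 0 : ℤ) - d' 0) := by
        have h1 : (Nat.fib (m + 2) : ℤ) ∣ ((d 0 : ℤ) - d' 0) * Nat.fib (m + 1) := ⟨_, by rw [hz, mul_comm]⟩
        refine IsCoprime.dvd_of_dvd_mul_right ?_ h1
        exact (Nat.isCoprime_iff_coprime.2 hco).symm
      have h2 := Int.eq_zero_of_abs_lt_dvd hdvd (by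
        rw [abs_lt]
        constructor <;> omega)
      omega
    have h1 : d 1 = d' 1 := by
      rw [h0] at heq'
      have hp : 0 < Nat.fib (m + 2) := by omega
      exact Nat.eq_of_mul_eq_mul_right hp (by omega)
    apply hne
    ext i
    fin_cases i
    · exact h0
    · exact h1
  rw [hexp]
  intro hzero
  have hd2 := Polynomial.degree_sum_eq_of_disjoint (fun d => Polynomial.C (h.coeff d) *
      ((cd K m).2 ^ (d 0) * (cd K (m + 1)).2 ^ (d 1))) h.support hdisj
  rw [hzero, Polynomial.degree_zero] at hd2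
  obtain ⟨d, hd⟩ : h.support.Nonempty := by
    rwa [Finset.nonempty_iff_ne_empty, Ne, support_eq_empty]
  have h5 := Finset.le_sup (f := fun d => (Polynomial.C (h.coeff d) *
      ((cd K m).2 ^ (d 0) * (cd K (m + 1)).2 ^ (d 1))).degree) hd
  rw [← hd2, hterm d hd] at h5
  exact WithBot.coe_ne_bot (le_bot_iff.1 h5)

end pair

end Q52.Nil
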